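import Pool.Agent.H72.GP.Targets

/-! Board gpo_modules, module SGD: degrees of the system of the functions. -/

set_option autoImplicit false

open Polynomial Finset
open Pool.Agent.H72.GP

namespace Pool.Agent.H38.GPO

theorem natDegree_qd (x y : ℚ) : (qd x y).natDegree ≤ 2 := by
  unfold qd
  refine natDegree_add_le_of_degree_le (natDegree_add_le_of_degree_le ?_ ?_) ?_
  · simp
  · exact ((natDegree_C_mul_le _ _).trans natDegree_X_le).trans (by norm_num)
  · exact (natDegree_C_mul_le _ _).trans (natDegree_X_pow_le 2)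

theorem natDegree_nm (κ : Bool) (x y : ℚ) : (nm κ x y).natDegree ≤ 1 := by
  unfold nm
  cases κ with
  | true => simp
  | false =>
    simp only [Bool.false_eq_true, if_false]
    refine natDegree_add_le_of_degree_le ?_ ?_
    · simp
    · exact (natDegree_C_mul_le _ _).trans natDegree_X_le

theorem eval_qd (x y z0 : ℚ) : (qd x y).eval z0 = qn x y z0 := by
  unfold qd qn
  simp

theorem pf_SGD : T_SGD := by
  intro s κ x y
  refine ⟨⟨?_, ?_⟩, ?_⟩
  · show (∏ k, qd (x k) (y k)).natDegree ≤ 2 * s
    refine (natDegree_prod_le _ _).trans ?_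
    refine (Finset.sum_le_sum (g := fun _ => 2) fun k _ => natDegree_qd _ _).trans ?_
    simp [mul_comm]
  · intro k
    show (nm (κ k) (x k) (y k) * ∏ j ∈ univ.erase k, qd (x j) (y j)).natDegree ≤ 2 * s
    refine natDegree_mul_le.trans ?_
    have h1 := natDegree_nm (κ k) (x k) (y k)
    have h2 : (∏ j ∈ univ.erase k, qd (x j) (y j)).natDegree ≤ 2 * (s - 1) := by
      refine (natDegree_prod_le _ _).trans ?_
      refine (Finset.sum_le_sum (g := fun _ => 2) fun k _ => natDegree_qd _ _).trans ?_
      simp [mul_comm, Finset.card_erase_of_mem]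
    have h3 : 0 < s := k.pos
    omega
  · intro z0 h
    show (∏ k, qd (x k) (y k)).eval z0 ≠ 0
    rw [eval_prod]
    refine Finset.prod_ne_zero_iff.2 fun k _ => ?_
    rw [eval_qd]
    exact h k

end Pool.Agent.H38.GPO
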